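import Mathlib
open Set
namespace Pool.Agent.Results.MP_053b7f_lc.NoWin

def hist {E : Type} (S P : ℕ → Set E) (n : ℕ) : List (Set E × Set E) :=
  (List.range n).map fun i => (S i, P i)

section
variable {E : Type} (split : List (Set E × Set E) → Set E → Set E)
  (pick : List (Set E × Set E) → Bool) (D : ℕ → Set E)

def p0 (s : List (Set E × Set E) × Set E) : Set E := s.2 ∩ split s.1 s.2
def s1 (s : List (Set E × Set E) × Set E) (c : Bool) : Set E :=
  if c then p0 split s else s.2 \ p0 split s
def h2 (s : List (Set E × Set E) × Set E) (m : Bool × ℕ) : List (Set E × Set E) :=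
  s.1 ++ [(s.2, p0 split s)] ++ [(s1 split s m.1, s1 split s m.1 ∩ D m.2)]
def next (s : List (Set E × Set E) × Set E) (m : Bool × ℕ) : List (Set E × Set E) × Set E :=
  (h2 split D s m, if pick (h2 split D s m) then s1 split s m.1 ∩ D m.2
    else s1 split s m.1 \ (s1 split s m.1 ∩ D m.2))

lemma good {T : Set E} (hT : ¬ T.Countable) (hD : ∀ x ∈ T, ∀ y ∈ T, (∀ m, x ∈ D m ↔ y ∈ D m) → x = y) :
    ∃ x, ∀ l : List (Bool × ℕ), x ∈ (l.foldl (next split pick D) ([], univ)).2 →
      ∃ m, x ∈ (next split pick D (l.foldl (next split pick D) ([], univ)) m).2 := by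
  by_contra hc
  push Not at hc
  apply hT
  let B : List (Bool × ℕ) × Bool → Set E := fun z => {x ∈ T |
    x ∈ s1 split (z.1.foldl (next split pick D) ([], univ)) z.2 ∧
    ∀ m, x ∉ (next split pick D (z.1.foldl (next split pick D) ([], univ)) (z.2, m)).2}
  have hB : ∀ z, (B z).Subsingleton := by
    rintro z x ⟨hx, hx1, hx2⟩ y ⟨hy, hy1, hy2⟩
    refine hD x hx y hy fun m => ?_
    have h1 := hx2 m
    have h2 := hy2 m
    simp only [next] at h1 h2
    split_ifs at h1 h2
    · simp only [mem_inter_iff, hx1, hy1, true_and] at h1 h2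
      exact iff_of_false h1 h2
    · simp only [mem_sdiff, mem_inter_iff, hx1, hy1, true_and, not_not] at h1 h2
      exact iff_of_true h1 h2
  refine (countable_iUnion fun z => (hB z).countable).mono fun x hx => ?_
  obtain ⟨l, h1, h2⟩ := hc x
  by_cases h : x ∈ p0 split (l.foldl (next split pick D) ([], univ))
  · exact mem_iUnion.mpr ⟨(l, true), hx, h, fun m => h2 _⟩
  · exact mem_iUnion.mpr ⟨(l, false), hx, ⟨h1, h⟩, fun m => h2 _⟩
end

theorem result (E : Type) [Uncountable E] (split : List (Set E × Set E) → Set E → Set E)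
    (pick : List (Set E × Set E) → Bool) :
    ∃ S P : ℕ → Set E, S 0 = univ ∧ (∀ n, P n ⊆ S n) ∧
      (∀ n, S (n + 1) = P n ∨ S (n + 1) = S n \ P n) ∧
      (∀ n, Even n → P n = S n ∩ split (hist S P n) (S n)) ∧
      (∀ n, Odd n → S (n + 1) = if pick (hist S P (n + 1)) then P n else S n \ P n) ∧
      (⋂ n ≥ 1, S n).Nonempty := by
  classical
  obtain ⟨T, -, hT⟩ := Cardinal.le_mk_iff_exists_subset.mp
    (show Cardinal.aleph 1 ≤ Cardinal.mk (univ : Set E) by
      rw [Cardinal.mk_univ]; exact Cardinal.aleph_one_le_iff.mpr Cardinal.aleph0_lt_mk)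
  obtain ⟨f⟩ : Nonempty (T ↪ Set ℕ) := by
    rw [← Cardinal.le_def, hT]
    simpa using Cardinal.aleph_one_le_continuum
  let D : ℕ → Set E := fun m => {x | ∃ h : x ∈ T, m ∈ f ⟨x, h⟩}
  obtain ⟨x, hx⟩ := good split pick D (T := T)
    (by rw [← Cardinal.le_aleph0_iff_set_countable, hT]; exact Cardinal.aleph0_lt_aleph_one.not_ge)
    (fun x hx y hy h => congrArg Subtype.val (f.injective (show f ⟨x, hx⟩ = f ⟨y, hy⟩ from
      Set.ext fun m => by simpa [D, hx, hy] using h m)))
  choose! mv hmv using hx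
  let l : ℕ → List (Bool × ℕ) := fun k => Nat.rec [] (fun _ l => l ++ [mv l]) k
  let st := fun k => (l k).foldl (next split pick D) ([], univ)
  have hst : ∀ k, st (k + 1) = next split pick D (st k) (mv (l k)) := fun k => by
    simp only [st, l, List.foldl_append, List.foldl_cons, List.foldl_nil]
  have hxs : ∀ k, x ∈ (st k).2 := by
    intro k
    induction k with
    | zero => exact mem_univ x
    | succ k ih => rw [hst]; exact hmv _ ih
  let S : ℕ → Set E := fun n => if n % 2 = 0 then (st (n / 2)).2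
    else s1 split (st (n / 2)) (mv (l (n / 2))).1
  let P : ℕ → Set E := fun n => if n % 2 = 0 then p0 split (st (n / 2))
    else s1 split (st (n / 2)) (mv (l (n / 2))).1 ∩ D (mv (l (n / 2))).2
  have e1 : ∀ k, (2 * k + 1) / 2 = k := fun k => by omega
  have S0 : ∀ k, S (2 * k) = (st k).2 := fun k => by simp [S]
  have S1 : ∀ k, S (2 * k + 1) = s1 split (st k) (mv (l k)).1 := fun k => by simp [S, e1]
  have P0 : ∀ k, P (2 * k) = p0 split (st k) := fun k => by simp [P]
  have P1 : ∀ k, P (2 * k + 1) = s1 split (st k) (mv (l k)).1 ∩ D (mv (l k)).2 := fun k => by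
    simp [P, e1]
  have hh : ∀ k, hist S P (2 * k) = (st k).1 := by
    intro k
    induction k with
    | zero => rfl
    | succ k ih =>
      rw [hst]
      simp only [hist] at ih
      simp only [hist, Nat.mul_succ, List.range_succ, List.map_append, ih, List.map_cons,
        List.map_nil, S0, S1, P0, P1, next, h2]
  have hodd : ∀ k, S (2 * k + 1 + 1) =
      if pick (hist S P (2 * k + 1 + 1)) then P (2 * k + 1) else S (2 * k + 1) \ P (2 * k + 1) := by
    intro k
    have : 2 * k + 1 + 1 = 2 * (k + 1) := by ring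
    rw [this, hh, S0, hst, S1, P1]
    rfl
  have hstep : ∀ n, S (n + 1) = P n ∨ S (n + 1) = S n \ P n := by
    intro n
    obtain ⟨k, rfl | rfl⟩ := Nat.even_or_odd' n
    · rw [S1, P0, S0, s1]
      split_ifs <;> simp
    · rw [hodd]
      split_ifs <;> simp
  have hsub : ∀ n, P n ⊆ S n := by
    intro n
    obtain ⟨k, rfl | rfl⟩ := Nat.even_or_odd' n
    · rw [P0, S0]; exact inter_subset_left
    · rw [P1, S1]; exact inter_subset_left
  refine ⟨S, P, S0 0, hsub, hstep, ?_, ?_, x, ?_⟩
  · rintro n ⟨k, rfl⟩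
    rw [← two_mul, P0, S0, hh]
    rfl
  · rintro n ⟨k, rfl⟩
    exact hodd k
  · simp only [mem_iInter]
    intro n _
    obtain ⟨k, rfl | rfl⟩ := Nat.even_or_odd' n
    · rw [S0]; exact hxs k
    · have h1 : x ∈ S (2 * k + 1 + 1) := by
        have : 2 * k + 1 + 1 = 2 * (k + 1) := by ring
        rw [this, S0]; exact hxs (k + 1)
      rcases hstep (2 * k + 1) with h | h <;> rw [h] at h1
      · exact hsub _ h1
      · exact h1.1

end Pool.Agent.Results.MP_053b7f_lc.NoWin
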